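import Pool.Agent.Helper31.FL.FsecB
import Pool.Agent.Helper90.FJ.Ample
import Pool.Agent.Helper41.FL.DenOne

/-!
Package FSEC of the project FL (helper9, MP_e09b14_ag), third part: the inequality
(`den_one` is by helper41).
-/

set_option autoImplicit false
set_option linter.unusedSectionVars false

namespace Pool.Agent.Helper31.FL

open FF Module MvPolynomial Pool.Agent.Helper9.FJ Pool.Agent.Helper9.PP Pool.Agent.Helper9.FL
open Pool.Agent.Helper9.GR Pool.Agent.Helper90.FJ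
open Pool.Agent.Helper97.PP (CG cg_C cg_X cg_one mh_psM mh_Cmul locM_eq)

section cg

variable {K : Type} [Field K] [Algebra ℂ K] {r l : ℕ} {P : Place ℂ K}

theorem cg_det {σ : Type} {n : ℕ} {M : Matrix (Fin n) (Fin n) (MvPolynomial σ K)}
    (hM : ∀ i j, CG P 0 (M i j)) : CG P 0 M.det := by
  rw [Matrix.det_apply]
  refine CG.sum _ fun σ' _ => ?_
  have h1 : CG P 0 (∏ i, M (σ' i) i) := CG.prod0 _ fun i _ => hM _ _
  rcases Int.units_eq_one_or (Equiv.Perm.sign σ') with h | h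
  · rw [h, one_smul]; exact h1
  · rw [h]
    have h2 := (cg_C (σ := σ) (P := P) (c := 0) (a := (-1 : K)) (by
      have := (Pool.Agent.Helper9.FJ.ge_one (P := P)).neg
      exact this)).mul h1
    rw [add_zero] at h2
    have h3 : (-1 : ℤˣ) • (∏ i, M (σ' i) i) = C (-1 : K) * ∏ i, M (σ' i) i := by
      rw [map_neg, map_one, neg_one_mul]
      simp [Units.smul_def]
    rw [h3]
    exact h2

theorem cg_pls (k : Fin l → ℕ) (blk : Fin r → ℕ) {U : Matrix (Fin r) (Fin r) K}
    (hU : ∀ i j, Ge P 0 (U i j)) (x) : CG P 0 (pls k blk U x) := by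
  rw [pls_eq]
  refine cg_det fun i j => ?_
  rw [Matrix.of_apply]
  split_ifs
  · exact cg_one
  · exact Pool.Agent.Helper97.PP.cg_zero
  · rw [Matrix.mul_apply]
    refine CG.sum _ fun b _ => ?_
    have h1 : CG P 0 (gw K blk i b) := by
      rw [gw, Matrix.of_apply]
      split_ifs
      · exact cg_X _
      · exact Pool.Agent.Helper97.PP.cg_zero
    have h2 := h1.mul (cg_C (σ := VV blk) (hU b j))
    rwa [add_zero] at h2

end cg

theorem one_more (hDEN : S_DEN) {K : Type} [Field K] [Algebra ℂ K] [IsFF ℂ K] {r l : ℕ}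
    (k : Fin l → ℕ) (hk : StrictMono k) (h0 : ∀ j, 0 < k j) (hr : ∀ j, k j < r) (blk : Fin r → ℕ)
    (hb : Monotone blk) (P : Place ℂ K) (Y U : Matrix (Fin r) (Fin r) K)
    (hY : ∀ i j, Ge P 0 (Y i j)) (hU : ∀ i j, Ge P 0 (U i j)) (hYU : Y * U = 1) (a : Fin l → ℕ)
    (N : ℤ) (f : MvPolynomial (Vr (fun j => Rk (k j) r)) K) (hf : IsMh a f)
    (hfi : CG P (-N) f) (h1 : CG P (1 - N)
      (aeval (fun x : Vr (fun j => Rk (k j) r) =>
        plu (fc (k x.1) (Y.map MvPolynomial.C * yx k blk)) x.2) f)) :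
    CG P (1 - N) (aeval (pls k blk U) f) := by
  obtain ⟨t, ht0, ht⟩ := P.surj
  have h2 : CG P 0 (C (t ^ N) * f) := by
    have h3 := (cg_C (σ := Vr (fun j => Rk (k j) r)) (ge_zpow ht N)).mul hfi
    rwa [add_neg_cancel] at h3
  have h4 : CG P 1 (aeval (fun x : Vr (fun j => Rk (k j) r) =>
        plu (fc (k x.1) (Y.map MvPolynomial.C * yx k blk)) x.2) (C (t ^ N) * f)) := by
    have h3 := (cg_C (σ := FrF k blk) (ge_zpow ht N)).mul h1
    rw [add_sub_cancel] at h3
    rw [map_mul, algHom_C]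
    exact h3
  have h5 : CG P 1 (aeval (pls k blk U) (C (t ^ N) * f)) :=
    Pool.Agent.Helper41.FL.den_one hDEN k hk h0 hr blk hb P Y U hY hU hYU a (C (t ^ N) * f) (mh_Cmul hf _) h2 h4
  rw [map_mul, algHom_C] at h5
  have h6 := (cg_C (σ := VV blk) (ge_zpow ht (-N))).mul h5
  rw [algebraMap_eq, ← mul_assoc, ← map_mul, ← zpow_add₀ ht0, neg_add_cancel, zpow_zero, map_one,
    one_mul, neg_add_eq_sub] at h6
  exact h6

theorem mh_loc {K : Type} [Field K] [Algebra ℂ K] {l : ℕ} {r : Fin l → ℕ} {a : Fin l → ℕ}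
    (E : ∀ j, Bundle K (r j)) (P : Place ℂ K) {s : MvPolynomial (Vr r) K} (hs : IsMh a s) :
    IsMh a (locM E P s) := by
  rw [locM_eq]
  exact mh_psM hs _

theorem nonvan {K : Type} [Field K] [Algebra ℂ K] {r l : ℕ} (k : Fin l → ℕ) (hk : ∀ j, k j ≤ r)
    (blk : Fin r → ℕ) (E : Bundle K r) (P : Place ℂ K) (Y U : Matrix (Fin r) (Fin r) K)
    (hYU : Y * U = 1) {a : Fin l → ℕ} {s : MvPolynomial (Vr (fun j => Rk (k j) r)) K}
    (hs : IsMh a s) (hsl : sl k blk E P Y s ≠ 0) {p : MvPolynomial (VV blk) K}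
    (g : MvPolynomial (VV blk) K →ₐ[K] MvPolynomial (VV blk) K) {n : ℕ}
    (h1 : g p = C ((E.B P).det ^ n) *
      aeval (pls k blk U) (locM (fun j => wedge (k j) E) P s)) : p ≠ 0 := by
  intro hp0
  rw [hp0, map_zero] at h1
  have h3 : (C ((E.B P).det ^ n) : MvPolynomial (VV blk) K) ≠ 0 := fun h0 =>
    pow_ne_zero n (E.det_ne P) (C_injective _ _ (by rw [h0, map_zero]))
  have h2 := (mul_eq_zero.1 h1.symm).resolve_left h3
  apply hsl
  rw [sl_eq]
  exact van k hk blk Y U hYU (mh_loc _ P hs) h2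

/-- Package FSEC. -/
theorem fsec (hSLP : S_SLP) (hDEN : S_DEN) : S_FSEC := by
  classical
  intro K _ _ _ r l k hkm hk0 hkr E h a N s hs P Y U hY hU hYU hEY hsl hge
  have hkr' : ∀ j, k j ≤ r := fun j => (hkr j).le
  let n : ℕ := ∑ j, a j
  let p := aeval (pls k h.blk h.G) s
  have hGG : h.G⁻¹ * h.G = 1 := Matrix.nonsing_inv_mul _ (isUnit_iff_ne_zero.2 h.hG)
  have hfr : ∀ (P' : Place ℂ K) (X' U' : Matrix (Fin r) (Fin r) K), X' * U' = 1 →
      E.B P' * h.G⁻¹ = X' * h.C P' → h.C P' * h.G = U' * E.B P' := by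
    intro P' X' U' hXU hE
    have hUX : U' * X' = 1 := mul_eq_one_comm.1 hXU
    calc h.C P' * h.G = (U' * X') * h.C P' * h.G := by rw [hUX, Matrix.one_mul]
      _ = U' * (E.B P' * h.G⁻¹) * h.G := by rw [hE, Matrix.mul_assoc U' X']
      _ = U' * E.B P' := by rw [Matrix.mul_assoc, Matrix.mul_assoc, hGG, Matrix.mul_one]
  have hdu : ∀ (X' U' : Matrix (Fin r) (Fin r) K), X' * U' = 1 → U'.det ≠ 0 := by
    intro X' U' hXU h0
    have := congrArg Matrix.det hXU
    rw [Matrix.det_mul, h0, mul_zero, Matrix.det_one] at this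
    exact zero_ne_one this
  have hmain : ∀ (P' : Place ℂ K) (X' U' : Matrix (Fin r) (Fin r) K), X' * U' = 1 →
      E.B P' * h.G⁻¹ = X' * h.C P' →
      aeval (fun x : VV h.blk => ∑ y, C ((h.F x.1).B P' y x.2) * X ⟨x.1, y⟩ :
        VV h.blk → MvPolynomial (VV h.blk) K) p = C ((E.B P').det ^ n) *
      aeval (pls k h.blk U') (locM (fun j => wedge (k j) E) P' s) := by
    intro P' X' U' hXU hE
    refine main_id k hkr' h.blk E P' h.G (h.C P') U' (hfr P' X' U' hXU hE) (h.htri P')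
      (hdu X' U' hXU) _ (fun x => ?_) hs.1
    rw [h.hF]
    rfl
  have hfm : IsMh a (locM (fun j => wedge (k j) E) P s) := mh_loc _ P hs.1
  have hp : p ≠ 0 := nonvan k hkr' h.blk E P Y U hYU hs.1 hsl _ (hmain P Y U hYU hEY)
  -- the coefficients at `P`
  have hP1 : CG P (1 - N P) (aeval (pls k h.blk U) (locM (fun j => wedge (k j) E) P s)) := by
    refine one_more hDEN k hkm hk0 hkr h.blk h.hblk P Y U hY hU hYU a (N P) _ hfm (hs.2 P) ?_
    rw [sl_eq] at hge
    exact hge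
  have hPall : ∀ P' : Place ℂ K,
      CG P' (-((N + n • E.detDiv - Finsupp.single P 1 : Place ℂ K →₀ ℤ) P'))
      (aeval (fun x : VV h.blk => ∑ y, C ((h.F x.1).B P' y x.2) * X ⟨x.1, y⟩ :
        VV h.blk → MvPolynomial (VV h.blk) K) p) := by
    intro P'
    have hdet : Ge P' (-(n * E.detDiv P')) ((E.B P').det ^ n) := by
      right
      rw [P'.ord_pow]
      change -(n * (-P'.ord (E.B P').det)) ≤ _
      rw [mul_neg, neg_neg]
    by_cases hPP : P' = P
    · subst hPP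
      rw [hmain P' Y U hYU hEY]
      refine ((cg_C hdet).mul hP1).mono (le_of_eq ?_)
      simp only [Finsupp.sub_apply, Finsupp.add_apply, Finsupp.smul_apply, Finsupp.single_eq_same,
        nsmul_eq_mul]
      ring
    · obtain ⟨X', U', hX', hU', hXU, hE⟩ := h.hC P'
      rw [hmain P' X' U' hXU hE]
      have h2 : CG P' (-N P') (locM (fun j => wedge (k j) E) P' s) := hs.2 P'
      refine ((cg_C hdet).mul (h2.aeval (cg_pls k h.blk hU'))).mono (le_of_eq ?_)
      simp only [Finsupp.sub_apply, Finsupp.add_apply, Finsupp.smul_apply,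
        Finsupp.single_eq_of_ne hPP, nsmul_eq_mul]
      ring
  have hfin := hSLP h.F h.m (fun a => ⟨⟨a, le_rfl⟩⟩) h.hS
    (fun i => ∑ j, if k j ≤ (i : ℕ) then a j else 0) p
    (fun α hα i => wh_aeval h.blk h.G hs.1 α hα i) hp
    (N + n • E.detDiv - Finsupp.single P 1) hPall
  rw [ddeg_sub, ddeg_add, ddeg_nsmul, ddeg_single, deg_one] at hfin
  have hsum : ∑ i : Fin r, ((∑ j, if k j ≤ (i : ℕ) then a j else 0 : ℕ) : ℝ) * h.m i =
      n * ∑ i, h.m i - ∑ j, a j * ∑ c ∈ Finset.univ.filter (fun c : Fin r => (c : ℕ) < k j),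
        h.m c := by
    have h1 : ∀ i : Fin r, ((∑ j, if k j ≤ (i : ℕ) then a j else 0 : ℕ) : ℝ) * h.m i =
        ∑ j, ((a j : ℝ) * h.m i - a j * if (i : ℕ) < k j then h.m i else 0) := by
      intro i
      rw [Nat.cast_sum, Finset.sum_mul]
      refine Finset.sum_congr rfl fun j _ => ?_
      by_cases hj : k j ≤ (i : ℕ)
      · rw [if_pos hj, if_neg (not_lt.2 hj), mul_zero, sub_zero]
      · rw [if_neg hj, if_pos (not_le.1 hj), sub_self, Nat.cast_zero, zero_mul]
    rw [Finset.sum_congr rfl fun i _ => h1 i, Finset.sum_comm, Nat.cast_sum, Finset.sum_mul,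
      ← Finset.sum_sub_distrib]
    refine Finset.sum_congr rfl fun j _ => ?_
    rw [Finset.sum_sub_distrib, Finset.sum_filter, Finset.mul_sum, Finset.mul_sum]
  rw [hsum] at hfin
  have hd := h.hdeg
  push_cast at hfin
  rw [← hd] at hfin
  linarith

end Pool.Agent.Helper31.FL
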