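import Pool.Agent.Helper9.FL.Stm
import Pool.Agent.Helper2.FL.Den
import Pool.Agent.Helper90.FJ.Gen
import Pool.Agent.Helper97.PP.Sub

/-!
Package FSEC of the project FL (helper9, MP_e09b14_ag): sections on the flags which are compatible
with the filtration.
-/

set_option autoImplicit false
set_option linter.unusedSectionVars false

namespace Pool.Agent.Helper31.FL

open FF Module MvPolynomial Pool.Agent.Helper9.FJ Pool.Agent.Helper9.PP Pool.Agent.Helper9.FL
open Pool.Agent.Helper9.GR Pool.Agent.Helper90.FJ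
open Pool.Agent.Helper97.PP (CG cg_C cg_X cg_one)

section matrices

variable {r l : ℕ}

/-- the general block upper triangular matrix -/
noncomputable def gw (R : Type) [CommRing R] (blk : Fin r → ℕ) :
    Matrix (Fin r) (Fin r) (MvPolynomial (VV blk) R) :=
  Matrix.of fun a b => if h : blk a ≤ blk b then X ⟨a, ⟨b, h⟩⟩ else 0

/-- the general point of the slice -/
noncomputable def gy (R : Type) [CommRing R] (k : Fin l → ℕ) (blk : Fin r → ℕ) :
    Matrix (Fin r) (Fin r) (MvPolynomial (FrF k blk) R) :=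
  Matrix.of fun a b => (if a = b then 1 else 0) +
    if h : blk a = blk b ∧ ∃ j, (b : ℕ) < k j ∧ k j ≤ (a : ℕ) then X ⟨(a, b), h⟩ else 0

/-- the determinants with the rows `e_S` and the last rows of `V` -/
def Pl {R : Type} [CommRing R] (k : ℕ) (V : Matrix (Fin r) (Fin r) R) (S : Fin k → Fin r) : R :=
  (Matrix.of fun (a c : Fin r) => if h : (a : ℕ) < k then
    (if c = S ⟨a, h⟩ then (1 : R) else 0) else V a c).det

theorem Pl_map {R R' : Type} [CommRing R] [CommRing R'] (θ : R →+* R') (k : ℕ)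
    (V : Matrix (Fin r) (Fin r) R) (S : Fin k → Fin r) : θ (Pl k V S) = Pl k (V.map θ) S := by
  unfold Pl
  rw [RingHom.map_det]
  congr 1
  ext a c
  simp only [RingHom.mapMatrix_apply, Matrix.map_apply, Matrix.of_apply]
  split_ifs <;> simp

theorem gw_map {R R' : Type} [CommRing R] [CommRing R'] (θ : R →+* R') (blk : Fin r → ℕ) :
    (gw R blk).map (MvPolynomial.map θ) = gw R' blk := by
  ext a b : 2
  simp only [gw, Matrix.map_apply, Matrix.of_apply]
  split_ifs <;> simp

theorem gy_map {R R' : Type} [CommRing R] [CommRing R'] (θ : R →+* R') (k : Fin l → ℕ)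
    (blk : Fin r → ℕ) : (gy R k blk).map (MvPolynomial.map θ) = gy R' k blk := by
  ext a b : 2
  simp only [gy, Matrix.map_apply, Matrix.of_apply, map_add]
  split_ifs <;> simp

theorem yx_eq {F : Type} [Field F] (k : Fin l → ℕ) (blk : Fin r → ℕ) :
    (yx k blk : Matrix (Fin r) (Fin r) (MvPolynomial (FrF k blk) F)) = gy F k blk := rfl

theorem sum_sub {M ι : Type} [AddCommMonoid M] [Fintype ι] (p : ι → Prop) [DecidablePred p]
    [Fintype {x // p x}] (f : {x // p x} → M) :
    ∑ x : {x // p x}, f x = ∑ x, if h : p x then f ⟨x, h⟩ else 0 := by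
  refine Fintype.sum_of_injective Subtype.val Subtype.val_injective f _ ?_ ?_
  · intro i hi
    exact dif_neg fun h => hi ⟨⟨i, h⟩, rfl⟩
  · intro i
    rw [dif_pos i.2]

theorem vrow_eq {F : Type} [Field F] (blk : Fin r → ℕ) (G : Matrix (Fin r) (Fin r) F) :
    vrow blk G = gw F blk * G.map C := by
  ext a c : 1
  rw [vrow, Matrix.of_apply, Matrix.mul_apply, sum_sub (M := MvPolynomial (VV blk) F)]
  refine Finset.sum_congr rfl fun b _ => ?_
  simp only [gw, Matrix.of_apply, Matrix.map_apply]
  split_ifs with h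
  · rw [mul_comm]
  · rw [zero_mul]

theorem pls_eq {F : Type} [Field F] (k : Fin l → ℕ) (blk : Fin r → ℕ)
    (G : Matrix (Fin r) (Fin r) F) (x : Vr (fun j => Rk (k j) r)) :
    pls k blk G x = Pl (k x.1) (gw F blk * G.map C) (sub (k x.1) r x.2) := by
  unfold pls Pl
  rw [vrow_eq]

theorem plu_fc {R : Type} [CommRing R] {k : ℕ} (hk : k ≤ r) (M : Matrix (Fin r) (Fin r) R)
    (i : Fin (Rk k r)) : plu (fc k M) i = (M.submatrix (sub k r i) (Fin.castLE hk)).det := by
  rw [plu]
  congr 1
  ext a b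
  rw [Matrix.submatrix_apply, Matrix.submatrix_apply, Pool.Agent.Helper2.FL.fc_apply hk]
  rfl

theorem Pl_of_inv {R : Type} [CommRing R] {k : ℕ} (hk : k ≤ r) {V V' : Matrix (Fin r) (Fin r) R}
    (hV : V * V' = 1) (i : Fin (Rk k r)) :
    Pl k V (sub k r i) = V.det * plu (fc k V') i := by
  rw [plu_fc hk]
  exact Pool.Agent.Helper2.FL.det_mix hk V V' hV (sub k r i)

theorem Pl_mul {K A : Type} [Field K] [CommRing A] [IsDomain A] [Algebra K A] {k : ℕ}
    (hk : k ≤ r) {V : Matrix (Fin r) (Fin r) A} (hV : V.det ≠ 0) {B : Matrix (Fin r) (Fin r) K}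
    (hB : B.det ≠ 0) (i : Fin (Rk k r)) :
    Pl k (V * B.map (algebraMap K A)) (sub k r i) = algebraMap K A B.det *
      ∑ j, algebraMap K A ((cpd k B)⁻¹ i j) * Pl k V (sub k r j) := by
  let F := FractionRing A
  let φ : A →+* F := algebraMap A F
  have hφ : Function.Injective φ := IsFractionRing.injective A F
  apply hφ
  have hd : (V.map φ).det ≠ 0 := by
    have h1 : (V.map φ).det = φ V.det := (RingHom.map_det φ V).symm
    rw [h1]
    exact fun h => hV (hφ (by rw [h, map_zero]))
  have hVi : V.map φ * (V.map φ)⁻¹ = 1 := Matrix.mul_nonsing_inv _ (isUnit_iff_ne_zero.2 hd)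
  have hBi : B * B⁻¹ = 1 := Matrix.mul_nonsing_inv _ (isUnit_iff_ne_zero.2 hB)
  let ψ : K →+* F := φ.comp (algebraMap K A)
  have hBi' : B.map ψ * B⁻¹.map ψ = 1 := by
    rw [← Matrix.map_mul, hBi]
    exact Matrix.map_one ψ (map_zero ψ) (map_one ψ)
  have h1 : (V.map φ * B.map ψ) * (B⁻¹.map ψ * (V.map φ)⁻¹) = 1 := by
    rw [Matrix.mul_assoc, ← Matrix.mul_assoc (B.map ψ), hBi', Matrix.one_mul, hVi]
  rw [Pl_map, map_mul, map_sum, Matrix.map_mul]
  have e1 : (B.map (algebraMap K A)).map φ = B.map ψ := by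
    ext a b; rfl
  rw [e1, Pl_of_inv hk h1, Pool.Agent.Helper2.FL.fc_mul hk, plu_mul, Matrix.det_mul,
    Matrix.mulVec, dotProduct, Finset.mul_sum, Finset.mul_sum]
  refine Finset.sum_congr rfl fun j _ => ?_
  rw [map_mul, Pl_map, Pl_of_inv hk hVi, cpd_map ψ, cpd_inv k hB]
  have e2 : (B.map ψ).det = φ (algebraMap K A B.det) := (RingHom.map_det ψ B).symm
  rw [e2, Matrix.map_apply]
  change _ = φ (algebraMap K A B.det) * (ψ _ * _)
  ring

theorem det_gw {F : Type} [Field F] (blk : Fin r → ℕ) : (gw F blk).det ≠ 0 := by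
  intro h0
  let e : MvPolynomial (VV blk) F →ₐ[F] F := aeval fun x : VV blk => if x.1 = x.2.1 then (1 : F) else 0
  have heW : (gw F blk).map e = 1 := by
    ext a b
    change e (if h : blk a ≤ blk b then X ⟨a, ⟨b, h⟩⟩ else 0) = _
    rw [Matrix.one_apply]
    split_ifs with h1 h2 h2
    · exact (aeval_X _ _).trans (if_pos h2)
    · exact (aeval_X _ _).trans (if_neg h2)
    · exact absurd (h2 ▸ le_rfl) h1
    · exact map_zero e
  have h3 : e (gw F blk).det = ((gw F blk).map e).det := RingHom.map_det e.toRingHom _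
  rw [h0, map_zero, heW, Matrix.det_one] at h3
  exact zero_ne_one h3

/-- the substitution given by a block upper triangular matrix -/
theorem gw_subst {F : Type} [Field F] (blk : Fin r → ℕ) {Cm : Matrix (Fin r) (Fin r) F}
    (htri : ∀ a b, Cm a b ≠ 0 → blk a ≤ blk b) (g : VV blk → MvPolynomial (VV blk) F)
    (hg : ∀ x : VV blk, g x = ∑ y : {b : Fin r // blk x.1 ≤ blk b},
      C (Cm y.1 x.2.1) * X ⟨x.1, y⟩) :
    (gw F blk).map (aeval g : MvPolynomial (VV blk) F →ₐ[F] _) = gw F blk * Cm.map C := by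
  ext a b : 1
  rw [Matrix.map_apply, Matrix.mul_apply, gw, Matrix.of_apply]
  by_cases h : blk a ≤ blk b
  · rw [dif_pos h, aeval_X, hg, sum_sub (M := MvPolynomial (VV blk) F)]
    refine Finset.sum_congr rfl fun y _ => ?_
    simp only [Matrix.of_apply, Matrix.map_apply]
    split_ifs with h2
    · rw [mul_comm]
    · rw [zero_mul]
  · rw [dif_neg h, map_zero]
    symm
    refine Finset.sum_eq_zero fun y _ => ?_
    simp only [Matrix.of_apply, Matrix.map_apply]
    split_ifs with h2
    · have : Cm y b = 0 := by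
        by_contra hne
        exact h (h2.trans (htri y b hne))
      rw [this, map_zero, mul_zero]
    · rw [zero_mul]

end matrices

section scaling

variable {K : Type} [Field K] [Algebra ℂ K] {l : ℕ} {R : Fin l → ℕ}

/-- scaling of the variables in a multihomogeneous polynomial -/
theorem scale {A : Type} [CommRing A] [Algebra K A] {a : Fin l → ℕ} {s : MvPolynomial (Vr R) K}
    (hs : IsMh a s) (c : A) (v : Vr R → A) :
    aeval (fun x => c * v x) s = c ^ (∑ j, a j) * aeval v s := by
  rw [aeval_def, aeval_def, eval₂_eq', eval₂_eq', Finset.mul_sum]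
  refine Finset.sum_congr rfl fun α hα => ?_
  have h1 := hs α (by simpa [MvPolynomial.mem_support_iff] using hα)
  have h2 : ∏ x : Vr R, (c * v x) ^ α x = c ^ (∑ j, a j) * ∏ x : Vr R, v x ^ α x := by
    rw [Finset.prod_congr rfl (fun x _ => mul_pow c (v x) (α x)), Finset.prod_mul_distrib,
      Finset.prod_pow_eq_pow_sum, Fintype.sum_sigma]
    congr 3
    funext j
    exact h1 j
  rw [h2]
  ring

end scaling

section weights

variable {r l : ℕ}

/-- weights of the variables: the rows -/
def rw' (blk : Fin r → ℕ) : VV blk → Fin r → ℕ := fun x => Pi.single x.1 1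

theorem weight_rw (blk : Fin r → ℕ) (α : VV blk →₀ ℕ) (i : Fin r) :
    Finsupp.weight (rw' blk) α i = ∑ y, α ⟨i, y⟩ := by
  rw [Finsupp.weight_apply, Finsupp.sum_fintype _ _ (by simp), Finset.sum_apply,
    Fintype.sum_sigma, Finset.sum_eq_single i]
  · refine Finset.sum_congr rfl fun y _ => ?_
    simp [rw']
  · intro j' _ hj
    refine Finset.sum_eq_zero fun y _ => ?_
    simp [rw', Pi.single_eq_of_ne (Ne.symm hj)]
  · intro h; exact absurd (Finset.mem_univ _) h

theorem wh_gw {F : Type} [Field F] (blk : Fin r → ℕ) (G : Matrix (Fin r) (Fin r) F) (a c : Fin r) :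
    IsWeightedHomogeneous (rw' blk) ((gw F blk * G.map C : Matrix _ _ _) a c) (Pi.single a 1) := by
  rw [Matrix.mul_apply]
  refine IsWeightedHomogeneous.sum Finset.univ _ _ fun b _ => ?_
  simp only [gw, Matrix.of_apply, Matrix.map_apply]
  split_ifs with h
  · have h1 := (isWeightedHomogeneous_X F (rw' blk) (⟨a, ⟨b, h⟩⟩ : VV blk)).mul
      (isWeightedHomogeneous_C (rw' blk) (G b c))
    rwa [add_zero] at h1
  · rw [zero_mul]
    exact isWeightedHomogeneous_zero _ _ _

theorem wh_Pl {F : Type} [Field F] (blk : Fin r → ℕ) (G : Matrix (Fin r) (Fin r) F) (k : ℕ)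
    (S : Fin k → Fin r) : IsWeightedHomogeneous (rw' blk) (Pl k (gw F blk * G.map C) S)
      (fun i : Fin r => if k ≤ (i : ℕ) then 1 else 0) := by
  unfold Pl
  rw [Matrix.det_apply']
  refine IsWeightedHomogeneous.sum Finset.univ _ _ fun σ _ => ?_
  have h1 : ∀ i : Fin r, IsWeightedHomogeneous (rw' blk)
      ((Matrix.of fun (a c : Fin r) => if h : (a : ℕ) < k then
        (if c = S ⟨a, h⟩ then (1 : MvPolynomial (VV blk) F) else 0)
        else (gw F blk * G.map C : Matrix _ _ _) a c) (σ i) i)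
      (if ((σ i : Fin r) : ℕ) < k then 0 else Pi.single (σ i) 1) := by
    intro i
    rw [Matrix.of_apply]
    by_cases h : ((σ i : Fin r) : ℕ) < k
    · rw [dif_pos h, if_pos h]
      split_ifs
      · exact isWeightedHomogeneous_one _ _
      · exact isWeightedHomogeneous_zero _ _ _
    · rw [dif_neg h, if_neg h]
      exact wh_gw blk G _ _
  have h2 := IsWeightedHomogeneous.prod Finset.univ _ _ fun i _ => h1 i
  have h3 : ∑ i, (if ((σ i : Fin r) : ℕ) < k then (0 : Fin r → ℕ) else Pi.single (σ i) 1) =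
      fun i : Fin r => if k ≤ (i : ℕ) then 1 else 0 := by
    rw [Equiv.sum_comp σ fun a : Fin r => if (a : ℕ) < k then (0 : Fin r → ℕ) else Pi.single a 1]
    funext i
    rw [Finset.sum_apply, Finset.sum_eq_single i]
    · by_cases h : (i : ℕ) < k
      · rw [if_pos h, if_neg (not_le.2 h)]; rfl
      · rw [if_neg h, if_pos (not_lt.1 h), Pi.single_eq_same]
    · intro b _ hb
      split_ifs
      · rfl
      · rw [Pi.single_eq_of_ne (Ne.symm hb)]
    · intro h; exact absurd (Finset.mem_univ _) h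
  rw [h3] at h2
  have h4 := (isWeightedHomogeneous_C (R := F) (rw' blk) (((Equiv.Perm.sign σ : ℤˣ) : ℤ) : F)).mul h2
  rw [zero_add] at h4
  rw [map_intCast] at h4
  exact h4

theorem wh_aeval {K : Type} [Field K] [Algebra ℂ K] {k : Fin l → ℕ} (blk : Fin r → ℕ)
    (G : Matrix (Fin r) (Fin r) K) {a : Fin l → ℕ} {s : MvPolynomial (Vr (fun j => Rk (k j) r)) K}
    (hs : IsMh a s) (α : VV blk →₀ ℕ) (hα : coeff α (aeval (pls k blk G) s) ≠ 0) (i : Fin r) :
    ∑ y, α ⟨i, y⟩ = ∑ j, if k j ≤ (i : ℕ) then a j else 0 := by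
  have h1 : IsWeightedHomogeneous (rw' blk) (aeval (pls k blk G) s)
      (fun i : Fin r => ∑ j, if k j ≤ (i : ℕ) then a j else 0) := by
    rw [aeval_def, eval₂_eq']
    refine IsWeightedHomogeneous.sum _ _ _ fun d hd => ?_
    have h2 := hs d (by simpa [MvPolynomial.mem_support_iff] using hd)
    have h3 : ∀ x : Vr (fun j => Rk (k j) r), IsWeightedHomogeneous (rw' blk)
        (pls k blk G x ^ d x) (d x • fun i : Fin r => if k x.1 ≤ (i : ℕ) then 1 else 0) := by
      intro x
      rw [pls_eq]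
      exact (wh_Pl blk G _ _).pow _
    have h4 := IsWeightedHomogeneous.prod Finset.univ _ _ fun x _ => h3 x
    have h5 := (isWeightedHomogeneous_C (rw' blk) (coeff d s)).mul h4
    have h6 : (0 : Fin r → ℕ) + ∑ x : Vr (fun j => Rk (k j) r),
        (d x • fun i : Fin r => if k x.1 ≤ (i : ℕ) then 1 else 0) =
        fun i : Fin r => ∑ j, if k j ≤ (i : ℕ) then a j else 0 := by
      funext i
      rw [zero_add, Finset.sum_apply, Fintype.sum_sigma]
      refine Finset.sum_congr rfl fun j _ => ?_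
      rw [← h2 j]
      split_ifs with h
      · refine Finset.sum_congr rfl fun y _ => ?_
        simp [h]
      · refine Finset.sum_eq_zero fun y _ => ?_
        simp [h]
    rw [h6] at h5
    exact h5
  have h2 := h1 hα
  rw [← weight_rw, h2]

end weights

end Pool.Agent.Helper31.FL
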