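import Pool.Agent.Helper31.FL.FsecA

/-!
Package FSEC of the project FL (helper9, MP_e09b14_ag), second part: the sections in the adapted
frames, nonvanishing, and the inequality.
-/

set_option autoImplicit false
set_option linter.unusedSectionVars false

namespace Pool.Agent.Helper31.FL

open FF Module MvPolynomial Pool.Agent.Helper9.FJ Pool.Agent.Helper9.PP Pool.Agent.Helper9.FL
open Pool.Agent.Helper9.GR Pool.Agent.Helper90.FJ
open Pool.Agent.Helper97.PP (CG cg_C cg_X cg_one mh_psM mh_Cmul locM_eq)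

variable {K : Type} [Field K] [Algebra ℂ K] {r l : ℕ}

/-- the sections in the adapted frames -/
theorem main_id (k : Fin l → ℕ) (hk : ∀ j, k j ≤ r) (blk : Fin r → ℕ) (E : Bundle K r)
    (P : Place ℂ K) (G Cm U : Matrix (Fin r) (Fin r) K) (hCG : Cm * G = U * E.B P)
    (htri : ∀ a b, Cm a b ≠ 0 → blk a ≤ blk b) (hU : U.det ≠ 0) (g : VV blk → MvPolynomial (VV blk) K)
    (hg : ∀ x : VV blk, g x = ∑ y : {b : Fin r // blk x.1 ≤ blk b}, C (Cm y.1 x.2.1) * X ⟨x.1, y⟩)
    {a : Fin l → ℕ} {s : MvPolynomial (Vr (fun j => Rk (k j) r)) K} (hs : IsMh a s) :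
    aeval g (aeval (pls k blk G) s) = C ((E.B P).det ^ (∑ j, a j)) *
      aeval (pls k blk U) (locM (fun j => wedge (k j) E) P s) := by
  have hdet : (gw K blk * U.map C).det ≠ 0 := by
    rw [Matrix.det_mul]
    refine mul_ne_zero (det_gw blk) ?_
    have h1 : (U.map (C : K →+* MvPolynomial (VV blk) K)).det = C U.det :=
      (RingHom.map_det C U).symm
    rw [h1]
    exact fun h => hU (C_injective _ _ (by rw [h, map_zero]))
  have h1 : ∀ x, (aeval g : MvPolynomial (VV blk) K →ₐ[K] _) (pls k blk G x) =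
      C (E.B P).det * aeval (pls k blk U)
        (∑ i, C (((wedge (k x.1) E).B P)⁻¹ x.2 i) *
          (X ⟨x.1, i⟩ : MvPolynomial (Vr (fun j => Rk (k j) r)) K)) := by
    intro x
    rw [pls_eq]
    have e1 := Pl_map ((aeval g : MvPolynomial (VV blk) K →ₐ[K] MvPolynomial (VV blk) K) :
          MvPolynomial (VV blk) K →+* MvPolynomial (VV blk) K)
      (k x.1) (gw K blk * G.map C) (sub (k x.1) r x.2)
    have e2 : (gw K blk * G.map C : Matrix (Fin r) (Fin r) (MvPolynomial (VV blk) K)).map
        ((aeval g : MvPolynomial (VV blk) K →ₐ[K] MvPolynomial (VV blk) K) :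
          MvPolynomial (VV blk) K →+* MvPolynomial (VV blk) K) =
        (gw K blk * U.map C) * (E.B P).map C := by
      rw [Matrix.map_mul]
      have e3 : (gw K blk).map
        ((aeval g : MvPolynomial (VV blk) K →ₐ[K] MvPolynomial (VV blk) K) :
          MvPolynomial (VV blk) K →+* MvPolynomial (VV blk) K) =
        gw K blk * Cm.map C := gw_subst blk htri g hg
      have e4 : (G.map C : Matrix (Fin r) (Fin r) (MvPolynomial (VV blk) K)).map
        ((aeval g : MvPolynomial (VV blk) K →ₐ[K] MvPolynomial (VV blk) K) :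
          MvPolynomial (VV blk) K →+* MvPolynomial (VV blk) K) =
        G.map C := by
        ext i j : 1
        exact (aeval g : MvPolynomial (VV blk) K →ₐ[K] _).commutes _
      rw [e3, e4, Matrix.mul_assoc, Matrix.mul_assoc, ← Matrix.map_mul, ← Matrix.map_mul, hCG]
    have e5 := Pl_mul (K := K) (A := MvPolynomial (VV blk) K) (hk x.1) hdet (E.det_ne P) x.2
    rw [e2] at e1
    refine e1.trans (Eq.trans e5 ?_)
    rw [map_sum]
    congr 1
    refine Finset.sum_congr rfl fun i _ => ?_
    rw [map_mul, aeval_X, pls_eq]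
    congr 1
    exact ((aeval (pls k blk U) : MvPolynomial (Vr (fun j => Rk (k j) r)) K →ₐ[K] _).commutes
      _).symm
  rw [comp_aeval_apply, locM, comp_aeval_apply]
  have h2 := scale (a := a) hs (C (E.B P).det : MvPolynomial (VV blk) K) (fun x =>
    aeval (pls k blk U) (∑ i, C (((wedge (k x.1) E).B P)⁻¹ x.2 i) *
          (X ⟨x.1, i⟩ : MvPolynomial (Vr (fun j => Rk (k j) r)) K)))
  rw [map_pow, ← h2]
  congr 2
  funext x
  exact h1 x

theorem sl_eq (k : Fin l → ℕ) (blk : Fin r → ℕ) (E : Bundle K r) (P : Place ℂ K)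
    (Y : Matrix (Fin r) (Fin r) K) (s : MvPolynomial (Vr (fun j => Rk (k j) r)) K) :
    sl k blk E P Y s = aeval (fun x : Vr (fun j => Rk (k j) r) =>
      plu (fc (k x.1) (Y.map MvPolynomial.C * yx k blk)) x.2)
        (locM (fun j => wedge (k j) E) P s) := by
  rw [sl, locM, comp_aeval_apply]
  congr 2
  funext x
  rw [map_sum]
  refine Finset.sum_congr rfl fun i _ => ?_
  rw [map_mul, aeval_X]
  congr 1
  exact ((aeval (fun x : Vr (fun j => Rk (k j) r) =>
      plu (fc (k x.1) (Y.map MvPolynomial.C * yx k blk)) x.2) :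
      MvPolynomial (Vr (fun j => Rk (k j) r)) K →ₐ[K] _).commutes _).symm

/-- the values of the general point of the slice are invertible -/
theorem yv_det (k : Fin l → ℕ) (blk : Fin r → ℕ) (x : FrF k blk → K) :
    (Pool.Agent.Helper2.FL.yv k blk x).det = 1 := by
  rw [Matrix.det_of_isLowerTriangular]
  · refine Finset.prod_eq_one fun c _ => ?_
    rw [Pool.Agent.Helper2.FL.yv, Matrix.of_apply, if_pos rfl, dif_neg, add_zero]
    rintro ⟨-, j', hj1, hj2⟩
    omega
  · intro a b hab
    have hab' : (a : ℕ) < (b : ℕ) := hab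
    rw [Pool.Agent.Helper2.FL.yv, Matrix.of_apply, if_neg, dif_neg, add_zero]
    · rintro ⟨-, j', hj1, hj2⟩
      omega
    · intro h3
      have := congrArg Fin.val h3
      omega

/-- nonvanishing -/
theorem van (k : Fin l → ℕ) (hk : ∀ j, k j ≤ r) (blk : Fin r → ℕ)
    (Y U : Matrix (Fin r) (Fin r) K) (hYU : Y * U = 1) {a : Fin l → ℕ}
    {f : MvPolynomial (Vr (fun j => Rk (k j) r)) K} (hf : IsMh a f)
    (h0 : aeval (pls k blk U) f = 0) : aeval (fun x : Vr (fun j => Rk (k j) r) =>
      plu (fc (k x.1) (Y.map MvPolynomial.C * yx k blk)) x.2) f =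
        (0 : MvPolynomial (FrF k blk) K) := by
  have : Infinite K := Infinite.of_injective _ (algebraMap ℂ K).injective
  refine MvPolynomial.funext fun x => ?_
  rw [map_zero]
  have hUY : U * Y = 1 := mul_eq_one_comm.1 hYU
  let Z := Pool.Agent.Helper2.FL.yv k blk x
  have hZd : Z.det = 1 := yv_det k blk x
  have hZu : IsUnit Z.det := by rw [hZd]; exact isUnit_one
  have hWt : ∀ a b, Z⁻¹ a b ≠ 0 → blk a ≤ blk b := by
    intro a b h
    have : Invertible Z := Matrix.invertibleOfIsUnitDet _ hZu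
    have h1 : Z.BlockTriangular blk := by
      intro c b hcb
      change (if c = b then (1 : K) else 0) + (if h : blk c = blk b ∧ ∃ j, (b : ℕ) < k j ∧
        k j ≤ (c : ℕ) then x ⟨(c, b), h⟩ else 0) = 0
      rw [if_neg, dif_neg, add_zero]
      · rintro ⟨h, -⟩
        exact absurd h hcb.ne'
      · rintro rfl
        exact lt_irrefl _ hcb
    have h2 := Matrix.blockTriangular_inv_of_blockTriangular h1
    by_contra hcon
    exact h (h2 (not_le.1 hcon))
  let ev : MvPolynomial (VV blk) K →ₐ[K] K := aeval fun y : VV blk => Z⁻¹ y.1 y.2.1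
  have hev : (gw K blk).map ev = Z⁻¹ := by
    ext a b
    change ev (if h : blk a ≤ blk b then X ⟨a, ⟨b, h⟩⟩ else 0) = _
    split_ifs with h
    · exact aeval_X _ _
    · rw [map_zero]
      by_contra hne
      exact h (hWt a b (Ne.symm hne))
  have hVV : (Z⁻¹ * U) * (Y * Z) = 1 := by
    calc (Z⁻¹ * U) * (Y * Z) = Z⁻¹ * ((U * Y) * Z) := by simp only [Matrix.mul_assoc]
      _ = 1 := by rw [hUY, Matrix.one_mul, Matrix.nonsing_inv_mul _ hZu]
  have hd : (Z⁻¹ * U).det ≠ 0 := by
    intro h
    have := congrArg Matrix.det hVV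
    rw [Matrix.det_mul, h, zero_mul, Matrix.det_one] at this
    exact zero_ne_one this
  have h1 := congrArg ev h0
  rw [map_zero, comp_aeval_apply] at h1
  have h2 : (fun y : Vr (fun j => Rk (k j) r) => ev (pls k blk U y)) =
      fun y : Vr (fun j => Rk (k j) r) => (Z⁻¹ * U).det * plu (fc (k y.1) (Y * Z)) y.2 := by
    funext y
    rw [pls_eq, ← Pl_of_inv (hk y.1) hVV]
    have e1 := Pl_map (ev : MvPolynomial (VV blk) K →+* K) (k y.1) (gw K blk * U.map C)
      (sub (k y.1) r y.2)
    refine e1.trans ?_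
    rw [Matrix.map_mul]
    have e2 : (gw K blk).map (ev : MvPolynomial (VV blk) K →+* K) = Z⁻¹ := hev
    have e3 : (U.map C : Matrix (Fin r) (Fin r) (MvPolynomial (VV blk) K)).map
        (ev : MvPolynomial (VV blk) K →+* K) = U := by
      ext i j
      exact ev.commutes _
    rw [e2, e3]
  rw [h2, scale hf] at h1
  have h3 := (mul_eq_zero.1 h1).resolve_left (pow_ne_zero _ hd)
  have h4 : eval x (aeval (fun x : Vr (fun j => Rk (k j) r) =>
      plu (fc (k x.1) (Y.map MvPolynomial.C * yx k blk)) x.2) f :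
        MvPolynomial (FrF k blk) K) =
      (aeval x : MvPolynomial (FrF k blk) K →ₐ[K] K) (aeval (fun x : Vr (fun j => Rk (k j) r) =>
      plu (fc (k x.1) (Y.map MvPolynomial.C * yx k blk)) x.2) f) := by
    rw [MvPolynomial.aeval_eq_eval]
  rw [h4, comp_aeval_apply, ← h3]
  congr 2
  funext y
  let ψ : MvPolynomial (FrF k blk) K →ₐ[K] K := aeval x
  change ψ (plu (fc (k y.1) (Y.map MvPolynomial.C * yx k blk)) y.2) = _
  rw [plu_fc (hk y.1), plu_fc (hk y.1)]
  have h5 := RingHom.map_det (ψ : MvPolynomial (FrF k blk) K →+* K)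
    ((Y.map MvPolynomial.C * yx k blk).submatrix (sub (k y.1) r y.2) (Fin.castLE (hk y.1)))
  refine h5.trans ?_
  congr 1
  ext c b
  rw [RingHom.mapMatrix_apply, Matrix.map_apply, Matrix.submatrix_apply, Matrix.submatrix_apply,
    Matrix.mul_apply, Matrix.mul_apply, map_sum]
  refine Finset.sum_congr rfl fun z _ => ?_
  rw [map_mul, Matrix.map_apply]
  congr 1
  · exact ψ.commutes _
  · change ψ (yx k blk z _) = Pool.Agent.Helper2.FL.yv k blk x z _
    rw [Pool.Agent.Helper2.FL.yv, yx, Matrix.of_apply, Matrix.of_apply, map_add]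
    congr 1
    · split_ifs
      · exact map_one ψ
      · exact map_zero ψ
    · split_ifs
      · exact aeval_X _ _
      · exact map_zero ψ

end Pool.Agent.Helper31.FL
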